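import Mathlib

/-!
# Irreducibility of the Pascalian polynomials of even index

`P_n(z) = ∑_{k=0}^n B(n,k) z^{n-k}` with `B(n,k) = binom(n, ⌊(n-k)/2⌋)`.  We prove that `P_n` is
irreducible over `ℚ` for every even `n ≥ 2`.

Write `n = 2m`.  For a prime `m < p < 2m` put `r = n - p`.  Modulo `p` the polynomial `P_n` becomes
`(1+X)(1+X²)^r`, the leading coefficient `binom(n,m)` is exactly divisible by `p`, and the value
`P_n(i) = ±½ binom(n,m) (1-i)` in the Gaussian integers shows that two factors of `P_n` cannot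
both vanish at the same square root of `-1` modulo `p`.  Hence for every factorization `P_n = f g`
one of the two degrees lies in `{0, 1, 2r, 2r+1}` (or in `{r, r+1}` when `p ≢ 3 (mod 4)`).
A given pair of degrees is compatible with at most three primes, and there are at least four
primes in `(m, 2m)` for `m ≥ 15` (Erdős' proof of Bertrand's postulate).  The remaining `n` are
done by the same constraints, by reduction modulo `2`, or by prime values together with the
Eneström–Kakeya theorem.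
-/

namespace Pool.Agent.Results.MP_9fb898_nt.EvenIrreducible

open Finset Polynomial

/-- the primes strictly between `m` and `2m` -/
def primesBetween (m : ℕ) : Finset ℕ := (Finset.Ioo m (2 * m)).filter Nat.Prime

lemma cb_le (m : ℕ) (hm : 2 < m) :
    Nat.centralBinom m ≤
      (2 * m) ^ Nat.sqrt (2 * m) * 4 ^ (2 * m / 3) * (2 * m) ^ (primesBetween m).card := by
  have m_pos : 0 < m := by omega
  have m2_pos : 1 ≤ 2 * m := by omega
  let f : ℕ → ℕ := fun x => x ^ (Nat.centralBinom m).factorization x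
  have hf1 : ∀ x, ¬ x.Prime → f x = 1 := by
    intro x hx
    simp only [f]
    rw [Nat.factorization_eq_zero_of_not_prime _ hx, pow_zero]
  have hf2 : ∀ x, f x ≤ 2 * m := fun x => Nat.pow_factorization_choose_le (by omega)
  have hprod : Nat.centralBinom m = ∏ p ∈ Finset.range (2 * m + 1), f p :=
    (Nat.prod_pow_factorization_centralBinom m).symm
  have hsplit : (∏ p ∈ Finset.range (2 * m + 1), f p)
      = (∏ p ∈ Finset.range (2 * m / 3 + 1), f p) * ∏ p ∈ primesBetween m, f p := by
    rw [← Finset.prod_union]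
    · symm
      apply Finset.prod_subset
      · intro x hx
        simp only [primesBetween, Finset.mem_union, Finset.mem_range, Finset.mem_filter,
          Finset.mem_Ioo] at hx ⊢
        omega
      · intro x hx hx'
        simp only [primesBetween, Finset.mem_union, Finset.mem_range, Finset.mem_filter,
          Finset.mem_Ioo, not_or, not_and, not_lt] at hx hx'
        by_cases hxp : x.Prime
        · by_cases hxm : x ≤ m
          · simp only [f]
            rw [Nat.factorization_centralBinom_of_two_mul_self_lt_three_mul hm hxm (by omega),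
              pow_zero]
          · exfalso
            have h2 : x ≠ 2 * m := by
              rintro rfl
              have := (Nat.prime_mul_iff.1 hxp)
              rcases this with ⟨_, h⟩ | ⟨_, h⟩ <;> omega
            exact hx'.2 (by omega) hxp
        · exact hf1 x hxp
    · rw [Finset.disjoint_left]
      intro x hx hx'
      simp only [primesBetween, Finset.mem_range, Finset.mem_filter, Finset.mem_Ioo] at hx hx'
      omega
  have h1 : (∏ p ∈ Finset.range (2 * m / 3 + 1), f p)
      ≤ (2 * m) ^ Nat.sqrt (2 * m) * 4 ^ (2 * m / 3) := by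
    let S := {p ∈ Finset.range (2 * m / 3 + 1) | Nat.Prime p}
    have : ∏ x ∈ S, f x = ∏ x ∈ Finset.range (2 * m / 3 + 1), f x := by
      refine Finset.prod_filter_of_ne fun p _ h => ?_
      contrapose h
      exact hf1 p h
    rw [← this, ← Finset.prod_filter_mul_prod_filter_not S (· ≤ Nat.sqrt (2 * m))]
    apply mul_le_mul'
    · refine (Finset.prod_le_prod' fun p _ => hf2 p).trans ?_
      have : (Finset.Icc 1 (Nat.sqrt (2 * m))).card = Nat.sqrt (2 * m) := by
        rw [Nat.card_Icc, Nat.add_sub_cancel]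
      rw [Finset.prod_const]
      refine pow_right_mono₀ m2_pos ((Finset.card_le_card fun x hx => ?_).trans this.le)
      obtain ⟨h1, h2⟩ := Finset.mem_filter.1 hx
      exact Finset.mem_Icc.mpr ⟨(Finset.mem_filter.1 h1).2.one_lt.le, h2⟩
    · refine le_trans ?_ (primorial_le_four_pow (2 * m / 3))
      refine (Finset.prod_le_prod' fun p hp => (?_ : f p ≤ p)).trans ?_
      · obtain ⟨h1, h2⟩ := Finset.mem_filter.1 hp
        refine (pow_right_mono₀ (Finset.mem_filter.1 h1).2.one_lt.le ?_).trans (pow_one p).le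
        exact Nat.factorization_choose_le_one (Nat.sqrt_lt'.mp <| not_le.1 h2)
      refine Finset.prod_le_prod_of_subset_of_one_le' (Finset.filter_subset _ _) ?_
      exact fun p hp _ => (Finset.mem_filter.1 hp).2.one_lt.le
  have h2 : (∏ p ∈ primesBetween m, f p) ≤ (2 * m) ^ (primesBetween m).card := by
    refine (Finset.prod_le_prod' fun p _ => hf2 p).trans ?_
    rw [Finset.prod_const]
  rw [hprod, hsplit]
  exact mul_le_mul' h1 h2

lemma pow_bound (s : ℕ) (hs : 64 ≤ s) : (s + 1) ^ 10 ≤ 2 ^ s := by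
  induction s, hs using Nat.le_induction with
  | base => norm_num
  | succ s hs ih =>
    have h1 : (s + 1 + 1) ^ 10 ≤ 2 * (s + 1) ^ 10 := by
      have h : (64 * (s + 2)) ≤ 65 * (s + 1) + 64 := by omega
      have h' : 65 * (s + 2) ≤ 66 * (s + 1) := by omega
      have h3 : (65 * (s + 2)) ^ 10 ≤ (66 * (s + 1)) ^ 10 := Nat.pow_le_pow_left h' 10
      rw [mul_pow, mul_pow] at h3
      have h4 : 66 ^ 10 ≤ 2 * 65 ^ 10 := by norm_num
      have h5 : 65 ^ 10 * (s + 2) ^ 10 ≤ 65 ^ 10 * (2 * (s + 1) ^ 10) := by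
        calc 65 ^ 10 * (s + 2) ^ 10 ≤ 66 ^ 10 * (s + 1) ^ 10 := h3
          _ ≤ (2 * 65 ^ 10) * (s + 1) ^ 10 := Nat.mul_le_mul_right _ h4
          _ = 65 ^ 10 * (2 * (s + 1) ^ 10) := by ring
      exact Nat.le_of_mul_le_mul_left h5 (by norm_num)
    calc (s + 1 + 1) ^ 10 ≤ 2 * (s + 1) ^ 10 := h1
      _ ≤ 2 * 2 ^ s := Nat.mul_le_mul_left _ ih
      _ = 2 ^ (s + 1) := by ring

lemma many_primes_large (m : ℕ) (hm : 2048 ≤ m) : 4 ≤ (primesBetween m).card := by
  by_contra hcon
  have hc : (primesBetween m).card ≤ 3 := by omega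
  have h0 : 4 ^ m < m * m.centralBinom := Nat.four_pow_lt_mul_centralBinom m (by omega)
  have h1 := cb_le m (by omega)
  set s := Nat.sqrt (2 * m) with hs
  have hs1 : s * s ≤ 2 * m := Nat.sqrt_le _
  have hs2 : 2 * m < (s + 1) * (s + 1) := Nat.lt_succ_sqrt _
  have hs64 : 64 ≤ s := by
    rw [hs]
    exact Nat.le_sqrt.2 (by omega)
  have h2 : 4 ^ m < (2 * m) ^ (s + 4) * 4 ^ (2 * m / 3) := by
    calc 4 ^ m < m * m.centralBinom := h0
      _ ≤ (2 * m) * ((2 * m) ^ s * 4 ^ (2 * m / 3) * (2 * m) ^ (primesBetween m).card) :=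
          Nat.mul_le_mul (by omega) h1
      _ ≤ (2 * m) * ((2 * m) ^ s * 4 ^ (2 * m / 3) * (2 * m) ^ 3) := by
          gcongr
          omega
      _ = (2 * m) ^ (s + 4) * 4 ^ (2 * m / 3) := by ring
  have h3 : 4 ^ (m - 2 * m / 3) < (2 * m) ^ (s + 4) := by
    have : 4 ^ m = 4 ^ (m - 2 * m / 3) * 4 ^ (2 * m / 3) := by
      rw [← pow_add]
      congr 1
      omega
    rw [this] at h2
    exact Nat.lt_of_mul_lt_mul_right h2
  have h4 : (2 * m) ^ (s + 4) ≤ ((s + 1) ^ 2) ^ (s + 4) :=
    Nat.pow_le_pow_left (by nlinarith) _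
  have h5 : 4 ^ (m - 2 * m / 3) < (s + 1) ^ (2 * (s + 4)) := by
    rw [pow_mul]
    exact lt_of_lt_of_le h3 h4
  have h6 : (4 ^ (m - 2 * m / 3)) ^ 30 < ((s + 1) ^ (2 * (s + 4))) ^ 30 :=
    Nat.pow_lt_pow_left h5 (by norm_num)
  have h7 : ((s + 1) ^ (2 * (s + 4))) ^ 30 ≤ 2 ^ (s * (6 * (s + 4))) := by
    calc ((s + 1) ^ (2 * (s + 4))) ^ 30 = ((s + 1) ^ 10) ^ (6 * (s + 4)) := by
          rw [← pow_mul, ← pow_mul]
          congr 1
          ring
      _ ≤ (2 ^ s) ^ (6 * (s + 4)) := Nat.pow_le_pow_left (pow_bound s hs64) _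
      _ = 2 ^ (s * (6 * (s + 4))) := by rw [← pow_mul]
  have h8 : 2 ^ (20 * m) ≤ (4 ^ (m - 2 * m / 3)) ^ 30 := by
    have : (4 : ℕ) = 2 ^ 2 := by norm_num
    rw [this, ← pow_mul, ← pow_mul]
    apply Nat.pow_le_pow_right (by norm_num)
    omega
  have h9 : 2 ^ (20 * m) < 2 ^ (s * (6 * (s + 4))) := lt_of_le_of_lt h8 (lt_of_lt_of_le h6 h7)
  have h10 : 20 * m < s * (6 * (s + 4)) := (Nat.pow_lt_pow_iff_right (by norm_num)).1 h9
  nlinarith

lemma four_of_list {m a b c d : ℕ} (ha : a.Prime) (hb : b.Prime) (hc : c.Prime) (hd : d.Prime)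
    (hab : a < b) (hbc : b < c) (hcd : c < d) (h1 : m < a) (h2 : d < 2 * m) :
    4 ≤ (primesBetween m).card := by
  have : ({a, b, c, d} : Finset ℕ) ⊆ primesBetween m := by
    intro x hx
    simp only [Finset.mem_insert, Finset.mem_singleton] at hx
    simp only [primesBetween, Finset.mem_filter, Finset.mem_Ioo]
    rcases hx with rfl | rfl | rfl | rfl
    · exact ⟨by omega, ha⟩
    · exact ⟨by omega, hb⟩
    · exact ⟨by omega, hc⟩
    · exact ⟨by omega, hd⟩
  calc 4 = ({a, b, c, d} : Finset ℕ).card := by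
        rw [Finset.card_insert_of_notMem, Finset.card_insert_of_notMem,
          Finset.card_insert_of_notMem, Finset.card_singleton] <;>
        simp only [Finset.mem_insert, Finset.mem_singleton] <;> omega
    _ ≤ _ := Finset.card_le_card this

lemma many_primes (m : ℕ) (hm : 15 ≤ m ∨ m = 10 ∨ m = 12) : 4 ≤ (primesBetween m).card := by
  rcases lt_or_ge m 2048 with h | h
  · rcases hm with hm | rfl | rfl
    · by_cases h0 : m < 17
      · exact four_of_list (a := 17) (b := 19) (c := 23) (d := 29) (by norm_num) (by norm_num)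
          (by norm_num) (by norm_num) (by omega) (by omega) (by omega) (by omega) (by omega)
      by_cases h1 : m < 19
      · exact four_of_list (a := 19) (b := 23) (c := 29) (d := 31) (by norm_num) (by norm_num)
          (by norm_num) (by norm_num) (by omega) (by omega) (by omega) (by omega) (by omega)
      by_cases h2 : m < 23
      · exact four_of_list (a := 23) (b := 29) (c := 31) (d := 37) (by norm_num) (by norm_num)
          (by norm_num) (by norm_num) (by omega) (by omega) (by omega) (by omega) (by omega)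
      by_cases h3 : m < 31
      · exact four_of_list (a := 31) (b := 37) (c := 41) (d := 43) (by norm_num) (by norm_num)
          (by norm_num) (by norm_num) (by omega) (by omega) (by omega) (by omega) (by omega)
      by_cases h4 : m < 37
      · exact four_of_list (a := 37) (b := 41) (c := 43) (d := 47) (by norm_num) (by norm_num)
          (by norm_num) (by norm_num) (by omega) (by omega) (by omega) (by omega) (by omega)
      by_cases h5 : m < 59
      · exact four_of_list (a := 59) (b := 61) (c := 67) (d := 71) (by norm_num) (by norm_num)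
          (by norm_num) (by norm_num) (by omega) (by omega) (by omega) (by omega) (by omega)
      by_cases h6 : m < 103
      · exact four_of_list (a := 103) (b := 107) (c := 109) (d := 113) (by norm_num) (by norm_num)
          (by norm_num) (by norm_num) (by omega) (by omega) (by omega) (by omega) (by omega)
      by_cases h7 : m < 191
      · exact four_of_list (a := 191) (b := 193) (c := 197) (d := 199) (by norm_num) (by norm_num)
          (by norm_num) (by norm_num) (by omega) (by omega) (by omega) (by omega) (by omega)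
      by_cases h8 : m < 347
      · exact four_of_list (a := 347) (b := 349) (c := 353) (d := 359) (by norm_num) (by norm_num)
          (by norm_num) (by norm_num) (by omega) (by omega) (by omega) (by omega) (by omega)
      by_cases h9 : m < 673
      · exact four_of_list (a := 673) (b := 677) (c := 683) (d := 691) (by norm_num) (by norm_num)
          (by norm_num) (by norm_num) (by omega) (by omega) (by omega) (by omega) (by omega)
      by_cases h10 : m < 1301
      · exact four_of_list (a := 1301) (b := 1303) (c := 1307) (d := 1319) (by norm_num)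
          (by norm_num) (by norm_num) (by norm_num) (by omega) (by omega) (by omega) (by omega)
          (by omega)
      · exact four_of_list (a := 2081) (b := 2083) (c := 2087) (d := 2089) (by norm_num)
          (by norm_num) (by norm_num) (by norm_num) (by omega) (by omega) (by omega) (by omega)
          (by omega)
    · exact four_of_list (a := 11) (b := 13) (c := 17) (d := 19) (by norm_num) (by norm_num)
        (by norm_num) (by norm_num) (by omega) (by omega) (by omega) (by omega) (by omega)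
    · exact four_of_list (a := 13) (b := 17) (c := 19) (d := 23) (by norm_num) (by norm_num)
        (by norm_num) (by norm_num) (by omega) (by omega) (by omega) (by omega) (by omega)
  · exact many_primes_large m h

/-- the Pascalian polynomial with integer coefficients -/
noncomputable def PZ (n : ℕ) : ℤ[X] :=
  ∑ j ∈ range (n + 1), C ((n.choose (j / 2) : ℕ) : ℤ) * X ^ j

lemma sum_range_two_mul {M : Type*} [AddCommMonoid M] (h : ℕ → M) (m : ℕ) :
    ∑ j ∈ range (2 * m), h j = ∑ i ∈ range m, (h (2 * i) + h (2 * i + 1)) := by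
  induction m with
  | zero => simp
  | succ k ih =>
    rw [show 2 * (k + 1) = 2 * k + 1 + 1 by ring, sum_range_succ, sum_range_succ, ih,
      sum_range_succ, add_assoc]

lemma PZ_split (m : ℕ) : PZ (2 * m) =
    (1 + X) * ∑ i ∈ range m, C (((2 * m).choose i : ℕ) : ℤ) * (X ^ 2) ^ i
      + C (((2 * m).choose m : ℕ) : ℤ) * X ^ (2 * m) := by
  unfold PZ
  rw [sum_range_succ, sum_range_two_mul, show 2 * m / 2 = m by omega, mul_sum]
  congr 1
  apply sum_congr rfl
  intro i _
  rw [show 2 * i / 2 = i by omega, show (2 * i + 1) / 2 = i by omega]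
  ring

lemma PZ_coeff (n j : ℕ) (hj : j ≤ n) : (PZ n).coeff j = ((n.choose (j / 2) : ℕ) : ℤ) := by
  unfold PZ
  rw [finsetSum_coeff]
  simp only [coeff_C_mul, coeff_X_pow]
  rw [sum_eq_single j]
  · simp
  · intro b _ hb
    simp [Ne.symm hb]
  · intro h
    exact absurd (mem_range.2 (by omega)) h

lemma PZ_coeff_zero (n : ℕ) : (PZ n).coeff 0 = 1 := by
  rw [PZ_coeff n 0 (Nat.zero_le _)]
  simp

lemma PZ_natDegree_le (n : ℕ) : (PZ n).natDegree ≤ n := by
  unfold PZ
  apply natDegree_sum_le_of_forall_le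
  intro i hi
  exact (natDegree_C_mul_X_pow_le _ _).trans (by have := mem_range.1 hi; omega)

lemma choose_half_pos (m : ℕ) : 0 < (2 * m).choose m := Nat.choose_pos (by omega)

lemma PZ_natDegree (m : ℕ) : (PZ (2 * m)).natDegree = 2 * m := by
  apply le_antisymm (PZ_natDegree_le _)
  apply le_natDegree_of_ne_zero
  rw [PZ_coeff _ _ le_rfl, show 2 * m / 2 = m by omega]
  have := choose_half_pos m
  positivity

lemma PZ_leadingCoeff (m : ℕ) : (PZ (2 * m)).leadingCoeff = (((2 * m).choose m : ℕ) : ℤ) := by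
  rw [leadingCoeff, PZ_natDegree, PZ_coeff _ _ le_rfl, show 2 * m / 2 = m by omega]

lemma PZ_ne_zero (m : ℕ) : PZ (2 * m) ≠ 0 := by
  intro h
  have := PZ_coeff_zero (2 * m)
  rw [h] at this
  simp at this

/-- reduction modulo a prime between `m` and `2m` -/
lemma PZ_map (m p : ℕ) (hp : p.Prime) (h1 : m < p) (h2 : p < 2 * m) (K : Type*) [Field K]
    [CharP K p] :
    (PZ (2 * m)).map (Int.castRingHom K) = (1 + X) * (X ^ 2 + 1) ^ (2 * m - p) := by
  have : Fact p.Prime := ⟨hp⟩
  set r := 2 * m - p with hr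
  have key : ∀ i, i ≤ m → (((2 * m).choose i : ℕ) : K) = ((r.choose i : ℕ) : K) := by
    intro i hi
    rw [CharP.natCast_eq_natCast K p]
    have h := Choose.choose_modEq_choose_mod_mul_choose_div_nat (n := 2 * m) (k := i) (p := p)
    have e1 : 2 * m % p = r := by
      rw [Nat.mod_eq_sub_mod (by omega), Nat.mod_eq_of_lt (by omega)]
    have e2 : 2 * m / p = 1 := by
      apply Nat.div_eq_of_lt_le <;> omega
    have e3 : i % p = i := Nat.mod_eq_of_lt (by omega)
    have e4 : i / p = 0 := Nat.div_eq_of_lt (by omega)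
    rw [e1, e2, e3, e4] at h
    simpa using h
  have hzero : (((2 * m).choose m : ℕ) : K) = 0 := by
    rw [key m le_rfl, Nat.choose_eq_zero_of_lt (by omega)]
    simp
  rw [PZ_split]
  simp only [Polynomial.map_add, Polynomial.map_mul, Polynomial.map_sum, Polynomial.map_pow,
    Polynomial.map_X, Polynomial.map_one, Polynomial.map_C]
  have hz : (C ((Int.castRingHom K) (((2 * m).choose m : ℕ) : ℤ)) : K[X]) = 0 := by
    simp only [eq_intCast, Int.cast_natCast, hzero, C_0]
  rw [hz, zero_mul, add_zero]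
  congr 1
  rw [add_pow]
  have hsub : range (r + 1) ⊆ range m := by
    intro x hx
    rw [mem_range] at *
    omega
  rw [← sum_subset hsub]
  · apply sum_congr rfl
    intro i hi
    have : (C ((Int.castRingHom K) (((2 * m).choose i : ℕ) : ℤ)) : K[X])
        = ((r.choose i : ℕ) : K[X]) := by
      rw [eq_intCast, Int.cast_natCast, key i (by have := mem_range.1 (hsub hi); omega)]
      simp
    rw [this]
    ring
  · intro x hx hx'
    have : (C ((Int.castRingHom K) (((2 * m).choose x : ℕ) : ℤ)) : K[X]) = 0 := by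
      rw [eq_intCast, Int.cast_natCast, key x (by have := mem_range.1 hx; omega),
        Nat.choose_eq_zero_of_lt (by rw [mem_range] at hx'; omega)]
      simp
    rw [this, zero_mul]

/-- the value at `i` in the Gaussian integers -/
lemma PZ_eval_I (m : ℕ) (hm : 0 < m) :
    (PZ (2 * m)).eval₂ (Int.castRingHom (ℤ√(-1))) (Zsqrtd.sqrtd) =
      ⟨(-1) ^ m * (((2 * m - 1).choose (m - 1) : ℕ) : ℤ),
        - ((-1) ^ m * (((2 * m - 1).choose (m - 1) : ℕ) : ℤ))⟩ := by
  obtain ⟨k, rfl⟩ : ∃ k, m = k + 1 := ⟨m - 1, by omega⟩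
  set c : ℤ := (((2 * (k + 1) - 1).choose (k + 1 - 1) : ℕ) : ℤ) with hc
  have hII : (Zsqrtd.sqrtd : ℤ√(-1)) ^ 2 = -1 := by
    rw [pow_two, Zsqrtd.dmuld]
    simp
  have halt : (∑ i ∈ range (k + 1), ((-1 : ℤ) ^ i * (((2 * (k + 1)).choose i : ℕ) : ℤ)))
      = (-1) ^ k * c := by
    rw [hc, show 2 * (k + 1) = 2 * k + 1 + 1 by ring]
    exact Int.alternating_sum_range_choose_eq_choose
  have hcc : (((2 * (k + 1)).choose (k + 1) : ℕ) : ℤ) = 2 * c := by
    have h1 : (2 * (k + 1)).choose (k + 1) = (2 * k + 1).choose k + (2 * k + 1).choose (k + 1) := by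
      rw [show 2 * (k + 1) = 2 * k + 1 + 1 by ring, Nat.choose_succ_succ]
    have h2 : (2 * k + 1).choose (k + 1) = (2 * k + 1).choose k := Nat.choose_symm_half k
    rw [h1, h2, hc, show 2 * (k + 1) - 1 = 2 * k + 1 by omega, show k + 1 - 1 = k by omega]
    push_cast
    ring
  rw [PZ_split]
  simp only [eval₂_add, eval₂_mul, eval₂_finsetSum, eval₂_pow, eval₂_X, eval₂_one, eval₂_C]
  rw [pow_mul, hII, hcc]
  have hs : (∑ i ∈ range (k + 1), (Int.castRingHom (ℤ√(-1))) (((2 * (k + 1)).choose i : ℕ) : ℤ)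
      * (-1) ^ i) = (((-1) ^ k * c : ℤ) : ℤ√(-1)) := by
    rw [← halt]
    push_cast
    apply sum_congr rfl
    intro i _
    simp [mul_comm]
  rw [hs]
  have e1 : (1 + Zsqrtd.sqrtd : ℤ√(-1)) = ⟨1, 1⟩ := by
    ext <;> simp
  have e2 : (Int.castRingHom (ℤ√(-1))) (2 * c) * (-1) ^ (k + 1)
      = ((2 * c * (-1) ^ (k + 1) : ℤ) : ℤ√(-1)) := by
    push_cast
    simp
  rw [e1, e2]
  ext
  · rw [Zsqrtd.re_add, Zsqrtd.re_mul, Zsqrtd.re_intCast, Zsqrtd.im_intCast, Zsqrtd.re_intCast]
    simp only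
    ring
  · rw [Zsqrtd.im_add, Zsqrtd.im_mul, Zsqrtd.re_intCast, Zsqrtd.im_intCast, Zsqrtd.im_intCast]
    simp only
    ring

lemma choose_exact (m p : ℕ) (hp : p.Prime) (h1 : m < p) (h2 : p < 2 * m) :
    p ∣ (2 * m - 1).choose (m - 1) ∧ ¬ p ^ 2 ∣ (2 * m - 1).choose (m - 1) := by
  constructor
  · exact hp.dvd_choose (by omega) (by omega) (by omega)
  · intro h
    have hpos : (2 * m - 1).choose (m - 1) ≠ 0 := (Nat.choose_pos (by omega)).ne'
    have h3 := (hp.pow_dvd_iff_le_factorization hpos).1 h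
    have h4 : ((2 * m - 1).choose (m - 1)).factorization p ≤ 1 :=
      Nat.factorization_choose_le_one (lt_of_le_of_lt (Nat.sub_le _ _) (by nlinarith))
    omega

lemma choose_exact' (m p : ℕ) (hp : p.Prime) (h1 : m < p) (h2 : p < 2 * m) :
    ¬ p ^ 2 ∣ (2 * m).choose m := by
  intro h
  have h3 := (hp.pow_dvd_iff_le_factorization (choose_half_pos m).ne').1 h
  have h4 : ((2 * m).choose m).factorization p ≤ 1 :=
    Nat.factorization_choose_le_one (by nlinarith)
  omega

section field

variable {K : Type*} [Field K]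

/-- evaluation at a square root of `-1` through the Gaussian integers -/
lemma eval_eq (ι : K) (hι : ι * ι = -1) (f : ℤ[X]) :
    f.eval₂ (Int.castRingHom K) ι
      = (((f.eval₂ (Int.castRingHom (ℤ√(-1))) Zsqrtd.sqrtd).re : ℤ) : K)
        + (((f.eval₂ (Int.castRingHom (ℤ√(-1))) Zsqrtd.sqrtd).im : ℤ) : K) * ι := by
  have hι' : ι * ι = ((-1 : ℤ) : K) := by simpa using hι
  have h := hom_eval₂ f (Int.castRingHom (ℤ√(-1))) (Zsqrtd.lift ⟨ι, hι'⟩) Zsqrtd.sqrtd
  have e1 : (Zsqrtd.lift ⟨ι, hι'⟩ : ℤ√(-1) →+* K).comp (Int.castRingHom (ℤ√(-1)))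
      = Int.castRingHom K := RingHom.ext_int _ _
  have e2 : (Zsqrtd.lift ⟨ι, hι'⟩ : ℤ√(-1) →+* K) Zsqrtd.sqrtd = ι := by simp
  rw [e1, e2] at h
  rw [← h]
  rfl

lemma key_aux (p : ℕ) (hp : p.Prime) (hp2 : p ≠ 2) [CharP K p] (ι : K) (hι : ι * ι = -1)
    (a b u v e : ℤ) (hab : (a : K) = 0) (hb : (b : K) = 0)
    (hw : (u : K) + (v : K) * ι = 0) (h1 : a * u - b * v = e) (h2 : a * v + b * u = -e)
    (hp3 : ¬ (p : ℤ) ^ 2 ∣ e) : False := by
  rw [CharP.intCast_eq_zero_iff K p] at hab hb
  obtain ⟨a', rfl⟩ := hab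
  obtain ⟨b', rfl⟩ := hb
  have hpz : (p : ℤ) ≠ 0 := by exact_mod_cast hp.ne_zero
  set e' := a' * u - b' * v with he'
  have h3 : e = p * e' := by rw [← h1, he']; ring
  have h4 : a' * v + b' * u = - e' := by
    have : (p : ℤ) * (a' * v + b' * u) = p * (-e') := by
      calc (p : ℤ) * (a' * v + b' * u) = p * a' * v + p * b' * u := by ring
        _ = -e := h2
        _ = p * (-e') := by rw [h3]; ring
    exact mul_left_cancel₀ hpz this
  have h5 : (e' : K) * (1 - ι) = 0 := by
    have e3 : (e' : K) = (a' : K) * u - b' * v := by rw [he']; push_cast; ring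
    have e4 : - (e' : K) = (a' : K) * v + b' * u := by
      have := congrArg (fun x : ℤ => (x : K)) h4
      push_cast at this
      rw [this]
    calc (e' : K) * (1 - ι) = e' + (- (e' : K)) * ι := by ring
      _ = ((a' : K) * u - b' * v) + ((a' : K) * v + b' * u) * ι := by rw [e4, e3]
      _ = ((a' : K) + b' * ι) * (u + v * ι) - b' * v * (ι * ι + 1) := by ring
      _ = 0 := by rw [hw, hι]; ring
  rcases mul_eq_zero.1 h5 with h6 | h6
  · rw [CharP.intCast_eq_zero_iff K p] at h6
    apply hp3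
    rw [h3, pow_two]
    exact mul_dvd_mul_left _ h6
  · have h7 : ι = 1 := by linear_combination -h6
    rw [h7] at hι
    have h8 : ((2 : ℕ) : K) = 0 := by
      push_cast
      linear_combination hι
    rw [CharP.cast_eq_zero_iff K p] at h8
    have := (Nat.prime_dvd_prime_iff_eq hp Nat.prime_two).1 h8
    exact hp2 this

lemma not_both (m p : ℕ) (hp : p.Prime) (h1 : m < p) (h2 : p < 2 * m) [CharP K p]
    (ι : K) (hι : ι * ι = -1) (f g : ℤ[X]) (hfg : PZ (2 * m) = f * g)
    (hf : f.eval₂ (Int.castRingHom K) ι = 0) (hg : g.eval₂ (Int.castRingHom K) ι = 0) :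
    False := by
  have hp2 : p ≠ 2 := by omega
  rw [eval_eq ι hι] at hf hg
  have hE := PZ_eval_I m (by omega)
  rw [hfg, eval₂_mul] at hE
  set z := f.eval₂ (Int.castRingHom (ℤ√(-1))) Zsqrtd.sqrtd
  set w := g.eval₂ (Int.castRingHom (ℤ√(-1))) Zsqrtd.sqrtd
  set e : ℤ := (-1) ^ m * (((2 * m - 1).choose (m - 1) : ℕ) : ℤ) with he
  have hre : z.re * w.re - z.im * w.im = e := by
    have := congrArg Zsqrtd.re hE
    rw [Zsqrtd.re_mul] at this
    simp only at this
    linarith
  have him : z.re * w.im + z.im * w.re = -e := by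
    have := congrArg Zsqrtd.im hE
    rw [Zsqrtd.im_mul] at this
    simp only at this
    linarith
  obtain ⟨hc1, hc2⟩ := choose_exact m p hp h1 h2
  have hpe : (e : K) = 0 := by
    rw [he]
    push_cast
    have : (((2 * m - 1).choose (m - 1) : ℕ) : K) = 0 := by
      rw [CharP.cast_eq_zero_iff K p]
      exact hc1
    rw [this, mul_zero]
  have hpe2 : ¬ (p : ℤ) ^ 2 ∣ e := by
    rw [he]
    intro h
    apply hc2
    have h' : (p : ℤ) ^ 2 ∣ (((2 * m - 1).choose (m - 1) : ℕ) : ℤ) := by
      rcases neg_one_pow_eq_or ℤ m with h3 | h3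
      · rw [h3, one_mul] at h
        exact h
      · rw [h3, neg_one_mul] at h
        exact (dvd_neg.1 h)
    exact_mod_cast h'
  have h2K : (2 : K) ≠ 0 := by
    intro h
    have h8 : ((2 : ℕ) : K) = 0 := by exact_mod_cast h
    rw [CharP.cast_eq_zero_iff K p] at h8
    exact hp2 ((Nat.prime_dvd_prime_iff_eq hp Nat.prime_two).1 h8)
  have hreK : (z.re : K) * w.re - z.im * w.im = 0 := by
    have := congrArg (fun x : ℤ => (x : K)) hre
    push_cast at this
    rw [this, hpe]
  have hprod : (z.im : K) * w.im = 0 := by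
    have h3 : (z.re : K) = - (z.im * ι) := by linear_combination hf
    have h4 : (w.re : K) = - (w.im * ι) := by linear_combination hg
    rw [h3, h4] at hreK
    have : (2 : K) * ((z.im : K) * w.im) = 0 := by
      linear_combination (-1 : K) * hreK + (z.im : K) * w.im * hι
    exact (mul_eq_zero.1 this).resolve_left h2K
  rcases mul_eq_zero.1 hprod with h3 | h3
  · have h4 : (z.re : K) = 0 := by
      rw [h3, zero_mul, add_zero] at hf
      exact hf
    exact key_aux p hp hp2 ι hι z.re z.im w.re w.im e h4 h3 hg hre him hpe2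
  · have h4 : (w.re : K) = 0 := by
      rw [h3, zero_mul, add_zero] at hg
      exact hg
    exact key_aux p hp hp2 ι hι w.re w.im z.re z.im e h4 h3 hf (by linarith) (by linarith) hpe2

lemma mod_four (p : ℕ) (hp : p.Prime) [CharP K p]
    (ι : K) (hι : ι * ι = -1) (f : ℤ[X])
    (hf : f.eval₂ (Int.castRingHom K) ι = 0) (hf' : f.eval₂ (Int.castRingHom K) (-ι) ≠ 0) :
    p % 4 ≠ 3 := by
  have : Fact p.Prime := ⟨hp⟩
  rw [eval_eq ι hι] at hf
  rw [eval_eq (-ι) (by rw [neg_mul_neg, hι])] at hf'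
  set z := f.eval₂ (Int.castRingHom (ℤ√(-1))) Zsqrtd.sqrtd
  have hb : (z.im : K) ≠ 0 := by
    intro hb
    rw [hb, zero_mul, add_zero] at hf
    apply hf'
    rw [hb, hf]
    ring
  have hsq : (((z.re ^ 2 + z.im ^ 2 : ℤ)) : K) = 0 := by
    push_cast
    have h3 : (z.re : K) = - (z.im * ι) := by linear_combination hf
    rw [h3]
    linear_combination (z.im : K) ^ 2 * hι
  rw [CharP.intCast_eq_zero_iff K p, ← ZMod.intCast_zmod_eq_zero_iff_dvd] at hsq
  have hb' : ((z.im : ℤ) : ZMod p) ≠ 0 := by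
    intro h
    apply hb
    rw [CharP.intCast_eq_zero_iff K p]
    exact (ZMod.intCast_zmod_eq_zero_iff_dvd _ _).1 h
  refine ZMod.mod_four_ne_three_of_sq_eq_neg_sq' (x := ((z.re : ℤ) : ZMod p)) hb' ?_
  push_cast at hsq
  linear_combination hsq

lemma deg_cases (m p : ℕ) (hp : p.Prime) (h1 : m < p) (h2 : p < 2 * m) [CharP K p]
    (ι : K) (hι : ι * ι = -1) (f g : ℤ[X]) (hfg : PZ (2 * m) = f * g) :
    (f.map (Int.castRingHom K)).natDegree + (g.map (Int.castRingHom K)).natDegree
        = 2 * (2 * m - p) + 1 ∧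
    ((f.map (Int.castRingHom K)).natDegree ≤ 1 ∨ (g.map (Int.castRingHom K)).natDegree ≤ 1 ∨
      (p % 4 ≠ 3 ∧ (f.map (Int.castRingHom K)).natDegree ≤ 2 * m - p + 1 ∧
        (g.map (Int.castRingHom K)).natDegree ≤ 2 * m - p + 1)) := by
  set r := 2 * m - p with hr
  set F := f.map (Int.castRingHom K) with hF
  set G := g.map (Int.castRingHom K) with hG
  have hFG : F * G = (1 + X) * (X ^ 2 + 1) ^ r := by
    rw [hF, hG, ← Polynomial.map_mul, ← hfg, PZ_map m p hp h1 h2 K]
  have hd1 : (1 + X : K[X]).natDegree = 1 := by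
    rw [add_comm, ← C_1, natDegree_X_add_C]
  have hd2 : (X ^ 2 + 1 : K[X]).natDegree = 2 := by
    rw [← C_1, natDegree_X_pow_add_C]
  have hn1 : (1 + X : K[X]) ≠ 0 := by
    intro h; rw [h] at hd1; simp at hd1
  have hn2 : (X ^ 2 + 1 : K[X]) ≠ 0 := by
    intro h; rw [h] at hd2; simp at hd2
  have hne : F * G ≠ 0 := by
    rw [hFG]; exact mul_ne_zero hn1 (pow_ne_zero _ hn2)
  have hF0 : F ≠ 0 := left_ne_zero_of_mul hne
  have hG0 : G ≠ 0 := right_ne_zero_of_mul hne
  have hsum : F.natDegree + G.natDegree = 2 * r + 1 := by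
    rw [← natDegree_mul hF0 hG0, hFG, natDegree_mul hn1 (pow_ne_zero _ hn2), natDegree_pow,
      hd1, hd2]
    ring
  refine ⟨hsum, ?_⟩
  have hfac : (X ^ 2 + 1 : K[X]) = (X - C ι) * (X - C (-ι)) := by
    have : (C ι : K[X]) * C ι = -1 := by rw [← C_mul, hι]; simp
    rw [C_neg]
    linear_combination this
  rw [hfac, mul_pow] at hFG
  have hFev : ∀ a, F.eval a = f.eval₂ (Int.castRingHom K) a := fun a => by
    rw [hF, eval_map]
  have hGev : ∀ a, G.eval a = g.eval₂ (Int.castRingHom K) a := fun a => by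
    rw [hG, eval_map]
  have hι' : (-ι) * (-ι) = -1 := by rw [neg_mul_neg, hι]
  have hcop : ∀ (a : K) (H : K[X]), H.eval a ≠ 0 → IsCoprime H ((X - C a) ^ r) := by
    intro a H h
    apply IsCoprime.symm
    apply IsCoprime.pow_left
    rw [(irreducible_X_sub_C a).coprime_iff_not_dvd, dvd_iff_isRoot]
    exact h
  have hone : ∀ (H H' : K[X]), H * H' = (1 + X) * ((X - C ι) ^ r * (X - C (-ι)) ^ r) →
      H.eval ι ≠ 0 → H.eval (-ι) ≠ 0 → H.natDegree ≤ 1 := by
    intro H H' h h3 h4
    have hdvd : H ∣ (1 + X) * ((X - C ι) ^ r * (X - C (-ι)) ^ r) := ⟨H', h.symm⟩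
    have := (IsCoprime.mul_right (hcop _ _ h3) (hcop _ _ h4)).dvd_of_dvd_mul_right hdvd
    calc H.natDegree ≤ (1 + X : K[X]).natDegree := natDegree_le_of_dvd this hn1
      _ = 1 := hd1
  have hmix : ∀ (a : K) (H H' : K[X]), H * H' = (1 + X) * ((X - C a) ^ r * (X - C (-a)) ^ r) →
      H.eval a ≠ 0 → H.natDegree ≤ r + 1 := by
    intro a H H' h h3
    have hdvd : H ∣ ((1 + X) * (X - C (-a)) ^ r) * (X - C a) ^ r :=
      ⟨H', by rw [h]; ring⟩
    have h5 := (hcop _ _ h3).dvd_of_dvd_mul_right hdvd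
    have hn3 : ((1 + X) * (X - C (-a)) ^ r : K[X]) ≠ 0 :=
      mul_ne_zero hn1 (pow_ne_zero _ (X_sub_C_ne_zero _))
    calc H.natDegree ≤ ((1 + X) * (X - C (-a)) ^ r : K[X]).natDegree :=
          natDegree_le_of_dvd h5 hn3
      _ = r + 1 := by
          rw [natDegree_mul hn1 (pow_ne_zero _ (X_sub_C_ne_zero _)), natDegree_pow,
            natDegree_X_sub_C, hd1]
          ring
  have hFG' : G * F = (1 + X) * ((X - C ι) ^ r * (X - C (-ι)) ^ r) := by
    rw [mul_comm, hFG]
  have hFGn : F * G = (1 + X) * ((X - C (-ι)) ^ r * (X - C (- -ι)) ^ r) := by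
    rw [hFG, neg_neg]; ring
  have hFGn' : G * F = (1 + X) * ((X - C (-ι)) ^ r * (X - C (- -ι)) ^ r) := by
    rw [mul_comm, hFGn]
  have hfg' : PZ (2 * m) = g * f := by rw [hfg, mul_comm]
  by_cases a1 : F.eval ι = 0
  · by_cases a2 : F.eval (-ι) = 0
    · right; left
      refine hone G F hFG' ?_ ?_
      · intro h
        exact not_both m p hp h1 h2 ι hι f g hfg (by rw [← hFev, a1]) (by rw [← hGev, h])
      · intro h
        exact not_both m p hp h1 h2 (-ι) hι' f g hfg (by rw [← hFev, a2]) (by rw [← hGev, h])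
    · right; right
      refine ⟨mod_four p hp ι hι f (by rw [← hFev, a1]) (by rw [← hFev]; exact a2), ?_, ?_⟩
      · exact hmix (-ι) F G hFGn a2
      · refine hmix ι G F hFG' ?_
        intro h
        exact not_both m p hp h1 h2 ι hι f g hfg (by rw [← hFev, a1]) (by rw [← hGev, h])
  · by_cases a2 : F.eval (-ι) = 0
    · right; right
      refine ⟨mod_four p hp (-ι) hι' f (by rw [← hFev, a2])
        (by rw [neg_neg, ← hFev]; exact a1), ?_, ?_⟩
      · exact hmix ι F G hFG a1
      · refine hmix (-ι) G F hFGn' ?_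
        intro h
        exact not_both m p hp h1 h2 (-ι) hι' f g hfg (by rw [← hFev, a2]) (by rw [← hGev, h])
    · left
      exact hone F G hFG a1 a2

end field

/-- the constraint on the degrees of a factorization coming from one prime -/
lemma constraint (m p : ℕ) (hp : p.Prime) (h1 : m < p) (h2 : p < 2 * m)
    (f g : ℤ[X]) (hfg : PZ (2 * m) = f * g) :
    ∃ t, (t = f.natDegree ∨ t = g.natDegree) ∧
      (t ≤ 1 ∨ t = 2 * (2 * m - p) ∨ t = 2 * (2 * m - p) + 1 ∨
        (p % 4 ≠ 3 ∧ (t = 2 * m - p ∨ t = 2 * m - p + 1))) := by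
  have : Fact p.Prime := ⟨hp⟩
  let K := AlgebraicClosure (ZMod p)
  have hch : CharP K p := charP_of_injective_algebraMap (algebraMap (ZMod p) K).injective p
  obtain ⟨ι, hι⟩ := IsAlgClosed.exists_pow_nat_eq (-1 : K) (n := 2) (by norm_num)
  rw [pow_two] at hι
  obtain ⟨hs, hc⟩ := deg_cases m p hp h1 h2 ι hι f g hfg
  have hlc : f.leadingCoeff * g.leadingCoeff = (((2 * m).choose m : ℕ) : ℤ) := by
    rw [← leadingCoeff_mul, ← hfg, PZ_leadingCoeff]
  have hor : (Int.castRingHom K) f.leadingCoeff ≠ 0 ∨ (Int.castRingHom K) g.leadingCoeff ≠ 0 := by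
    by_contra hcon
    push Not at hcon
    obtain ⟨e1, e2⟩ := hcon
    rw [eq_intCast, CharP.intCast_eq_zero_iff K p] at e1 e2
    apply choose_exact' m p hp h1 h2
    have : (p : ℤ) ^ 2 ∣ (((2 * m).choose m : ℕ) : ℤ) := by
      rw [← hlc, pow_two]
      exact mul_dvd_mul e1 e2
    exact_mod_cast this
  rcases hor with h | h
  · have e := natDegree_map_of_leadingCoeff_ne_zero (Int.castRingHom K) h
    refine ⟨f.natDegree, Or.inl rfl, ?_⟩
    rw [e] at hs hc
    omega
  · have e := natDegree_map_of_leadingCoeff_ne_zero (Int.castRingHom K) h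
    refine ⟨g.natDegree, Or.inr rfl, ?_⟩
    rw [e] at hs hc
    omega

/-- powers of two -/
lemma pow_two_case (m : ℕ) (hm : 0 < m) (h2 : ∀ i, 0 < i → i ≤ m → 2 ∣ (2 * m).choose i)
    (h4 : ¬ 4 ∣ (2 * m).choose m) (f g : ℤ[X]) (hfg : PZ (2 * m) = f * g) :
    f.natDegree ≤ 1 ∨ g.natDegree ≤ 1 := by
  have : Fact (Nat.Prime 2) := ⟨Nat.prime_two⟩
  have hmap : (PZ (2 * m)).map (Int.castRingHom (ZMod 2)) = 1 + X := by
    have hz : ∀ i, 0 < i → i ≤ m →
        (C ((Int.castRingHom (ZMod 2)) (((2 * m).choose i : ℕ) : ℤ)) : (ZMod 2)[X]) = 0 := by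
      intro i hi him
      rw [eq_intCast, Int.cast_natCast]
      have : (((2 * m).choose i : ℕ) : ZMod 2) = 0 := by
        rw [ZMod.natCast_eq_zero_iff]
        exact h2 i hi him
      rw [this, C_0]
    rw [PZ_split]
    simp only [Polynomial.map_add, Polynomial.map_mul, Polynomial.map_sum, Polynomial.map_pow,
      Polynomial.map_X, Polynomial.map_one, Polynomial.map_C]
    rw [hz m hm le_rfl, zero_mul, add_zero, sum_eq_single 0]
    · simp
    · intro b hb hb0
      rw [hz b (Nat.pos_of_ne_zero hb0) (by have := mem_range.1 hb; omega), zero_mul]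
    · intro h
      exact absurd (mem_range.2 hm) h
  have hlc : f.leadingCoeff * g.leadingCoeff = (((2 * m).choose m : ℕ) : ℤ) := by
    rw [← leadingCoeff_mul, ← hfg, PZ_leadingCoeff]
  have hor : (Int.castRingHom (ZMod 2)) f.leadingCoeff ≠ 0 ∨
      (Int.castRingHom (ZMod 2)) g.leadingCoeff ≠ 0 := by
    by_contra hcon
    push Not at hcon
    obtain ⟨e1, e2⟩ := hcon
    rw [eq_intCast, ZMod.intCast_zmod_eq_zero_iff_dvd] at e1 e2
    apply h4
    have : ((2 : ℕ) : ℤ) * (2 : ℕ) ∣ (((2 * m).choose m : ℕ) : ℤ) := by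
      rw [← hlc]
      exact mul_dvd_mul e1 e2
    have h5 : ((2 * 2 : ℕ) : ℤ) ∣ (((2 * m).choose m : ℕ) : ℤ) := by exact_mod_cast this
    exact Int.natCast_dvd_natCast.1 h5
  have hd1 : (1 + X : (ZMod 2)[X]).natDegree = 1 := by
    rw [add_comm, ← C_1, natDegree_X_add_C]
  have hn1 : (1 + X : (ZMod 2)[X]) ≠ 0 := by
    intro h; rw [h] at hd1; simp at hd1
  have hFG : f.map (Int.castRingHom (ZMod 2)) * g.map (Int.castRingHom (ZMod 2)) = 1 + X := by
    rw [← Polynomial.map_mul, ← hfg, hmap]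
  rcases hor with h | h
  · left
    rw [← natDegree_map_of_leadingCoeff_ne_zero (Int.castRingHom (ZMod 2)) h]
    calc _ ≤ (1 + X : (ZMod 2)[X]).natDegree := natDegree_le_of_dvd ⟨_, hFG.symm⟩ hn1
      _ = 1 := hd1
  · right
    rw [← natDegree_map_of_leadingCoeff_ne_zero (Int.castRingHom (ZMod 2)) h]
    calc _ ≤ (1 + X : (ZMod 2)[X]).natDegree :=
          natDegree_le_of_dvd ⟨_, by rw [mul_comm]; exact hFG.symm⟩ hn1
      _ = 1 := hd1

/-- Eneström–Kakeya estimate -/
lemma ek (a : ℕ → ℝ) (n : ℕ) (h0 : 0 ≤ a 0) (hmono : ∀ j, j < n → a j ≤ a (j + 1))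
    (z : ℂ) (hz : 1 ≤ ‖z‖) (k : ℕ) (hk : k ≤ n) :
    ‖(1 - z) * (∑ j ∈ range (k + 1), (a j : ℂ) * z ^ j) + (a k : ℂ) * z ^ (k + 1)‖
      ≤ a k * ‖z‖ ^ k := by
  induction k with
  | zero =>
    simp only [zero_add, range_one, sum_singleton, pow_zero, mul_one, pow_one]
    have : (1 - z) * (a 0 : ℂ) + (a 0 : ℂ) * z = (a 0 : ℂ) := by ring
    rw [this, Complex.norm_real, Real.norm_of_nonneg h0]
  | succ k ih =>
    have ih' := ih (by omega)
    have hm := hmono k (by omega)
    have e : (1 - z) * (∑ j ∈ range (k + 1 + 1), (a j : ℂ) * z ^ j)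
        + (a (k + 1) : ℂ) * z ^ (k + 1 + 1)
        = ((1 - z) * (∑ j ∈ range (k + 1), (a j : ℂ) * z ^ j) + (a k : ℂ) * z ^ (k + 1))
          + (((a (k + 1) - a k : ℝ)) : ℂ) * z ^ (k + 1) := by
      rw [sum_range_succ _ (k + 1)]
      push_cast
      ring
    rw [e]
    have hak : 0 ≤ a k := by
      have : ∀ i, i ≤ k → 0 ≤ a i := by
        intro i
        induction i with
        | zero => intro _; exact h0
        | succ i ih2 => intro hi; exact (ih2 (by omega)).trans (hmono i (by omega))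
      exact this k le_rfl
    calc _ ≤ ‖(1 - z) * (∑ j ∈ range (k + 1), (a j : ℂ) * z ^ j) + (a k : ℂ) * z ^ (k + 1)‖
          + ‖(((a (k + 1) - a k : ℝ)) : ℂ) * z ^ (k + 1)‖ := norm_add_le _ _
      _ ≤ a k * ‖z‖ ^ k + (a (k + 1) - a k) * ‖z‖ ^ (k + 1) := by
          apply add_le_add ih'
          rw [norm_mul, Complex.norm_real, Real.norm_of_nonneg (by linarith), norm_pow]
      _ ≤ a k * ‖z‖ ^ (k + 1) + (a (k + 1) - a k) * ‖z‖ ^ (k + 1) := by
          gcongr
          omega
      _ = a (k + 1) * ‖z‖ ^ (k + 1) := by ring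

lemma choose_mono (m j : ℕ) (hj : j < 2 * m) :
    (2 * m).choose (j / 2) ≤ (2 * m).choose ((j + 1) / 2) := by
  rcases Nat.even_or_odd j with h | h
  · obtain ⟨k, rfl⟩ := h
    rw [show (k + k + 1) / 2 = (k + k) / 2 by omega]
  · obtain ⟨k, rfl⟩ := h
    rw [show (2 * k + 1 + 1) / 2 = (2 * k + 1) / 2 + 1 by omega]
    exact Nat.choose_le_succ_of_lt_half_left (by omega)

lemma root_norm_le (m : ℕ) (z : ℂ) (hz : (PZ (2 * m)).eval₂ (Int.castRingHom ℂ) z = 0) :
    ‖z‖ ≤ 1 := by
  by_contra hcon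
  push Not at hcon
  have h := ek (fun j => (((2 * m).choose (j / 2) : ℕ) : ℝ)) (2 * m) (by simp)
    (fun j hj => by exact_mod_cast choose_mono m j hj) z hcon.le (2 * m) le_rfl
  have e : (∑ j ∈ range (2 * m + 1), (((((2 * m).choose (j / 2) : ℕ) : ℝ)) : ℂ) * z ^ j) = 0 := by
    rw [← hz, PZ, eval₂_finsetSum]
    apply sum_congr rfl
    intro j _
    rw [eval₂_mul, eval₂_C, eval₂_X_pow]
    simp
  rw [e, mul_zero, zero_add, norm_mul, norm_pow, Complex.norm_real] at h
  have hpos : (0 : ℝ) < (((2 * m).choose (2 * m / 2) : ℕ) : ℝ) := by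
    rw [show 2 * m / 2 = m by omega]
    exact_mod_cast choose_half_pos m
  rw [Real.norm_of_nonneg hpos.le] at h
  have h2 := le_of_mul_le_mul_left h hpos
  have h3 : ‖z‖ ^ (2 * m) < ‖z‖ ^ (2 * m + 1) := pow_lt_pow_right₀ hcon (by omega)
  linarith

lemma eval_bound (m : ℕ) (f g : ℤ[X]) (hfg : PZ (2 * m) = f * g) (x : ℤ) (hx : 1 ≤ |x|) :
    (|x| - 1) ^ f.natDegree ≤ |f.eval x| := by
  have hf0 : f ≠ 0 := by
    intro h
    rw [h, zero_mul] at hfg
    exact PZ_ne_zero m hfg
  set F := f.map (Int.castRingHom ℂ) with hF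
  have hinj : Function.Injective (Int.castRingHom ℂ) := by
    intro a b h
    simpa using h
  have hF0 : F ≠ 0 := by
    rw [hF]
    exact (Polynomial.map_ne_zero_iff hinj).2 hf0
  have hs : F.Splits := IsAlgClosed.splits F
  have hev := hs.eval_eq_prod_roots (x : ℂ)
  have hdeg : F.natDegree = f.natDegree := natDegree_map_eq_of_injective hinj f
  have hcard : Multiset.card F.roots = f.natDegree := by
    rw [← hs.natDegree_eq_card_roots, hdeg]
  have hlc : 1 ≤ ‖F.leadingCoeff‖ := by
    rw [hF, leadingCoeff_map_of_injective hinj]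
    have h1 : f.leadingCoeff ≠ 0 := leadingCoeff_ne_zero.2 hf0
    have h2 : 1 ≤ |f.leadingCoeff| := Int.one_le_abs h1
    rw [eq_intCast, Complex.norm_intCast]
    exact_mod_cast h2
  have hroots : ∀ z ∈ F.roots, (|x| : ℝ) - 1 ≤ ‖(x : ℂ) - z‖ := by
    intro z hz
    have hz0 : F.eval z = 0 := (mem_roots hF0).1 hz
    have hz1 : ‖z‖ ≤ 1 := by
      apply root_norm_le m
      rw [hfg, eval₂_mul, ← eval_map, ← hF, hz0, zero_mul]
    have := norm_sub_norm_le (x : ℂ) z
    rw [Complex.norm_intCast] at this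
    linarith
  have hprod : ((|x| : ℝ) - 1) ^ f.natDegree ≤ ‖(F.roots.map (fun a => (x : ℂ) - a)).prod‖ := by
    have hx' : (0 : ℝ) ≤ (|x| : ℝ) - 1 := by
      have : (1 : ℝ) ≤ ((|x| : ℤ) : ℝ) := by exact_mod_cast hx
      rw [Int.cast_abs] at this
      linarith
    rw [← hcard]
    have hgen : ∀ S : Multiset ℂ, (∀ z ∈ S, (|x| : ℝ) - 1 ≤ ‖(x : ℂ) - z‖) →
        ((|x| : ℝ) - 1) ^ (Multiset.card S) ≤ ‖(S.map (fun a => (x : ℂ) - a)).prod‖ := by
      intro S
      induction S using Multiset.induction with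
      | empty => intro _; simp
      | cons a S ih =>
        intro h
        rw [Multiset.card_cons, Multiset.map_cons, Multiset.prod_cons, norm_mul, pow_succ',]
        exact mul_le_mul (h a (Multiset.mem_cons_self a S))
          (ih fun z hz => h z (Multiset.mem_cons_of_mem hz)) (pow_nonneg hx' _) (norm_nonneg _)
    exact hgen F.roots hroots
  have hfinal : ((|x| : ℝ) - 1) ^ f.natDegree ≤ ‖F.eval (x : ℂ)‖ := by
    rw [hev, norm_mul]
    calc ((|x| : ℝ) - 1) ^ f.natDegree
        ≤ 1 * ‖(F.roots.map (fun a => (x : ℂ) - a)).prod‖ := by rw [one_mul]; exact hprod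
      _ ≤ _ := mul_le_mul_of_nonneg_right hlc (norm_nonneg _)
  have hcast : F.eval (x : ℂ) = ((f.eval x : ℤ) : ℂ) := by
    rw [hF, eval_intCast_map]
    simp
  rw [hcast, Complex.norm_intCast] at hfinal
  exact_mod_cast hfinal

lemma prime_value (m : ℕ) (f g : ℤ[X]) (hfg : PZ (2 * m) = f * g) (x s : ℤ) (q : ℕ)
    (hq : q.Prime) (hs : 0 < s) (hx : 2 ≤ |x|) (hval : (PZ (2 * m)).eval x = s * q)
    (hlt : s < (|x| - 1) ^ 2) : f.natDegree ≤ 1 ∨ g.natDegree ≤ 1 := by
  by_contra hcon
  push Not at hcon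
  obtain ⟨hf, hg⟩ := hcon
  have b1 := eval_bound m f g hfg x (by omega)
  have b2 := eval_bound m g f (by rw [hfg, mul_comm]) x (by omega)
  have c1 : s < |f.eval x| :=
    lt_of_lt_of_le (lt_of_lt_of_le hlt (pow_le_pow_right₀ (by omega) hf)) b1
  have c2 : s < |g.eval x| :=
    lt_of_lt_of_le (lt_of_lt_of_le hlt (pow_le_pow_right₀ (by omega) hg)) b2
  rw [hfg, eval_mul] at hval
  have hqz : Prime (q : ℤ) := Nat.prime_iff_prime_int.1 hq
  have hq0 : (q : ℤ) ≠ 0 := hqz.ne_zero
  have hdvd : (q : ℤ) ∣ f.eval x * g.eval x := ⟨s, by rw [hval]; ring⟩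
  rcases hqz.dvd_or_dvd hdvd with h | h
  · obtain ⟨t, ht⟩ := h
    rw [ht] at hval
    have : t * g.eval x = s := by
      have : (q : ℤ) * (t * g.eval x) = q * s := by linarith
      exact mul_left_cancel₀ hq0 this
    have h3 : |g.eval x| ≤ s := by
      apply Int.le_of_dvd hs
      rw [abs_dvd]
      exact ⟨t, by rw [← this]; ring⟩
    omega
  · obtain ⟨t, ht⟩ := h
    rw [ht] at hval
    have : t * f.eval x = s := by
      have : (q : ℤ) * (t * f.eval x) = q * s := by linarith
      exact mul_left_cancel₀ hq0 this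
    have h3 : |f.eval x| ≤ s := by
      apply Int.le_of_dvd hs
      rw [abs_dvd]
      exact ⟨t, by rw [← this]; ring⟩
    omega

lemma no_linear (m : ℕ) (f g : ℤ[X]) (hfg : PZ (2 * m) = f * g) : f.natDegree ≠ 1 := by
  intro h1
  have h0 : f.coeff 0 * g.coeff 0 = 1 := by
    rw [← mul_coeff_zero, ← hfg, PZ_coeff_zero]
  have ha : f.coeff 1 ≠ 0 := by
    rw [← h1]
    exact leadingCoeff_ne_zero.2 (by rintro rfl; simp at h1)
  have hb : f.coeff 0 = 1 ∨ f.coeff 0 = -1 := Int.isUnit_iff.1 (IsUnit.of_mul_eq_one _ h0)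
  have hf : f = C (f.coeff 1) * X + C (f.coeff 0) := eq_X_add_C_of_natDegree_le_one h1.le
  set a := f.coeff 1
  set b := f.coeff 0
  have haR : (a : ℝ) ≠ 0 := by exact_mod_cast ha
  have hroot : (PZ (2 * m)).eval₂ (Int.castRingHom ℝ) (-(b : ℝ) / a) = 0 := by
    rw [hfg, eval₂_mul, hf]
    rw [eval₂_add, eval₂_mul, eval₂_C, eval₂_C, eval₂_X, eq_intCast, eq_intCast]
    have : (a : ℝ) * (-(b : ℝ) / a) + b = 0 := by field_simp; ring
    rw [this, zero_mul]
  set x : ℝ := -(b : ℝ) / a with hx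
  have hxb : -1 ≤ x := by
    have h2 : |x| ≤ 1 := by
      rw [hx, abs_div, abs_neg]
      have h3 : |(b : ℝ)| = 1 := by
        rcases hb with h | h <;> rw [h] <;> simp
      have h4 : (1 : ℝ) ≤ |(a : ℝ)| := by
        have := Int.one_le_abs ha
        exact_mod_cast this
      rw [h3]
      exact (div_le_one (by linarith)).2 h4
    exact (abs_le.1 h2).1
  have hx0 : x ≠ 0 := by
    rw [hx]
    apply div_ne_zero _ haR
    rcases hb with h | h <;> rw [h] <;> simp
  rw [PZ_split] at hroot
  simp only [eval₂_add, eval₂_mul, eval₂_finsetSum, eval₂_pow, eval₂_X, eval₂_one,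
    eval₂_C] at hroot
  simp only [eq_intCast, Int.cast_natCast] at hroot
  have p1 : 0 ≤ (1 + x) * ∑ i ∈ range m, (((2 * m).choose i : ℕ) : ℝ) * (x ^ 2) ^ i := by
    apply mul_nonneg (by linarith)
    apply sum_nonneg
    intro i _
    positivity
  have p2 : 0 < (((2 * m).choose m : ℕ) : ℝ) * x ^ (2 * m) := by
    have := choose_half_pos m
    rw [pow_mul]
    positivity
  linarith


lemma PZ_eval (n : ℕ) (x : ℤ) :
    (PZ n).eval x = ∑ j ∈ range (n + 1), ((n.choose (j / 2) : ℕ) : ℤ) * x ^ j := by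
  unfold PZ
  rw [eval_finsetSum]
  apply sum_congr rfl
  intro j _
  simp

lemma val6 : (PZ (2 * 3)).eval (-6) = 5 * ((166967 : ℕ) : ℤ) := by
  rw [PZ_eval]; decide +kernel

lemma val10 : (PZ (2 * 5)).eval (-4) = 3 * ((73814623 : ℕ) : ℤ) := by
  rw [PZ_eval]; decide +kernel

lemma val12 : (PZ (2 * 6)).eval 4 = 1 * ((19821301189 : ℕ) : ℤ) := by
  rw [PZ_eval]; decide +kernel

lemma prime6 : Nat.Prime 166967 := by norm_num

set_option maxRecDepth 100000 in
lemma prime10 : Nat.Prime 73814623 := by norm_num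

lemma ne_one_aux (a : ℕ) (h : a % 19821301189 ≠ 1) : ((a : ℕ) : ZMod 19821301189) ≠ 1 := by
  intro h'
  have h2 : ((a : ℕ) : ZMod 19821301189) = ((1 : ℕ) : ZMod 19821301189) := by
    rw [h']; norm_num
  rw [ZMod.natCast_eq_natCast_iff'] at h2
  exact h (by rw [h2])

lemma prime12 : Nat.Prime 19821301189 := by
  apply lucas_primality 19821301189 (2 : ZMod 19821301189)
  · reduce_mod_char
  · intro q hq hd
    have e : 19821301189 - 1 = 2 * 2 * 3 * 13 * 277 * 317 * 1447 := by norm_num
    rw [e] at hd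
    have h2 : Nat.Prime 2 := by norm_num
    have h3 : Nat.Prime 3 := by norm_num
    have h13 : Nat.Prime 13 := by norm_num
    have h277 : Nat.Prime 277 := by norm_num
    have h317 : Nat.Prime 317 := by norm_num
    have h1447 : Nat.Prime 1447 := by norm_num
    rw [hq.dvd_mul, hq.dvd_mul, hq.dvd_mul, hq.dvd_mul, hq.dvd_mul, hq.dvd_mul,
      Nat.prime_dvd_prime_iff_eq hq h2, Nat.prime_dvd_prime_iff_eq hq h3,
      Nat.prime_dvd_prime_iff_eq hq h13, Nat.prime_dvd_prime_iff_eq hq h277,
      Nat.prime_dvd_prime_iff_eq hq h317, Nat.prime_dvd_prime_iff_eq hq h1447] at hd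
    rcases hd with (((((rfl | rfl) | rfl) | rfl) | rfl) | rfl) | rfl
    · reduce_mod_char
      have := ne_one_aux 19821301188 (by norm_num)
      simpa using this
    · reduce_mod_char
      have := ne_one_aux 19821301188 (by norm_num)
      simpa using this
    · reduce_mod_char
      have := ne_one_aux 7157719471 (by norm_num)
      simpa using this
    · reduce_mod_char
      have := ne_one_aux 19533923994 (by norm_num)
      simpa using this
    · reduce_mod_char
      have := ne_one_aux 3174037592 (by norm_num)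
      simpa using this
    · reduce_mod_char
      have := ne_one_aux 4724414279 (by norm_num)
      simpa using this
    · reduce_mod_char
      have := ne_one_aux 13316082408 (by norm_num)
      simpa using this

lemma odd_of_prime_between {m p : ℕ} (hp : p.Prime) (h1 : m < p) (h2 : p < 2 * m) :
    p % 2 = 1 := by
  rcases hp.eq_two_or_odd with h | h
  · omega
  · exact h

/-- If there are four primes between `m` and `2m`, every factorization is trivial. -/
lemma four_prime_case (m : ℕ) (hm : 4 ≤ (primesBetween m).card) (f g : ℤ[X])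
    (hfg : PZ (2 * m) = f * g) (hdeg : f.natDegree + g.natDegree = 2 * m)
    (hf : 2 ≤ f.natDegree) (hg : 2 ≤ g.natDegree) : False := by
  set D := f.natDegree with hD
  set E := g.natDegree with hE
  rcases le_total D E with hDE | hDE
  · have hsub : primesBetween m ⊆
        ({E + (1 - D % 2), 2 * m - D / 2, m + (D + 1) / 2} : Finset ℕ) := by
      intro p hp
      simp only [primesBetween, Finset.mem_filter, Finset.mem_Ioo] at hp
      obtain ⟨⟨h1, h2⟩, hpp⟩ := hp
      have hodd := odd_of_prime_between hpp h1 h2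
      obtain ⟨t, ht, hc⟩ := constraint m p hpp h1 h2 f g hfg
      rw [← hD, ← hE] at ht
      simp only [Finset.mem_insert, Finset.mem_singleton]
      omega
    have := (Finset.card_le_card hsub).trans Finset.card_le_three
    omega
  · have hsub : primesBetween m ⊆
        ({D + (1 - D % 2), 2 * m - D / 2, m + (D + 1) / 2} : Finset ℕ) := by
      intro p hp
      simp only [primesBetween, Finset.mem_filter, Finset.mem_Ioo] at hp
      obtain ⟨⟨h1, h2⟩, hpp⟩ := hp
      have hodd := odd_of_prime_between hpp h1 h2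
      obtain ⟨t, ht, hc⟩ := constraint m p hpp h1 h2 f g hfg
      rw [← hD, ← hE] at ht
      simp only [Finset.mem_insert, Finset.mem_singleton]
      omega
    have := (Finset.card_le_card hsub).trans Finset.card_le_three
    omega

lemma dichotomy (m : ℕ) (hm : 0 < m) (f g : ℤ[X]) (hfg : PZ (2 * m) = f * g) :
    f.natDegree ≤ 1 ∨ g.natDegree ≤ 1 := by
  have hne : f * g ≠ 0 := by rw [← hfg]; exact PZ_ne_zero m
  have hdeg : f.natDegree + g.natDegree = 2 * m := by
    rw [← natDegree_mul (left_ne_zero_of_mul hne) (right_ne_zero_of_mul hne), ← hfg,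
      PZ_natDegree]
  by_cases hbig : 15 ≤ m ∨ m = 10 ∨ m = 12
  · by_contra hcon
    push Not at hcon
    exact four_prime_case m (many_primes m hbig) f g hfg hdeg hcon.1 hcon.2
  · have hcases : m = 1 ∨ m = 2 ∨ m = 3 ∨ m = 4 ∨ m = 5 ∨ m = 6 ∨ m = 7 ∨ m = 8 ∨ m = 9 ∨
        m = 11 ∨ m = 13 ∨ m = 14 := by omega
    rcases hcases with rfl | rfl | rfl | rfl | rfl | rfl | rfl | rfl | rfl | rfl | rfl | rfl
    · omega
    · refine pow_two_case 2 (by norm_num) ?_ (by decide) f g hfg
      intro i h1 h2; interval_cases i <;> decide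
    · exact prime_value 3 f g hfg (-6) 5 166967 prime6 (by norm_num) (by norm_num) val6
        (by norm_num)
    · refine pow_two_case 4 (by norm_num) ?_ (by decide) f g hfg
      intro i h1 h2; interval_cases i <;> decide
    · exact prime_value 5 f g hfg (-4) 3 73814623 prime10 (by norm_num) (by norm_num) val10
        (by norm_num)
    · exact prime_value 6 f g hfg 4 1 19821301189 prime12 (by norm_num) (by norm_num) val12
        (by norm_num)
    · obtain ⟨t1, ht1, hc1⟩ := constraint 7 11 (by norm_num) (by norm_num) (by norm_num) f g hfg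
      obtain ⟨t2, ht2, hc2⟩ := constraint 7 13 (by norm_num) (by norm_num) (by norm_num) f g hfg
      omega
    · refine pow_two_case 8 (by norm_num) ?_ (by decide +kernel) f g hfg
      intro i h1 h2; interval_cases i <;> decide +kernel
    · obtain ⟨t1, ht1, hc1⟩ := constraint 9 11 (by norm_num) (by norm_num) (by norm_num) f g hfg
      obtain ⟨t2, ht2, hc2⟩ := constraint 9 13 (by norm_num) (by norm_num) (by norm_num) f g hfg
      obtain ⟨t3, ht3, hc3⟩ := constraint 9 17 (by norm_num) (by norm_num) (by norm_num) f g hfg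
      omega
    · obtain ⟨t1, ht1, hc1⟩ := constraint 11 13 (by norm_num) (by norm_num) (by norm_num) f g hfg
      obtain ⟨t2, ht2, hc2⟩ := constraint 11 17 (by norm_num) (by norm_num) (by norm_num) f g hfg
      obtain ⟨t3, ht3, hc3⟩ := constraint 11 19 (by norm_num) (by norm_num) (by norm_num) f g hfg
      omega
    · obtain ⟨t1, ht1, hc1⟩ := constraint 13 19 (by norm_num) (by norm_num) (by norm_num) f g hfg
      obtain ⟨t2, ht2, hc2⟩ := constraint 13 23 (by norm_num) (by norm_num) (by norm_num) f g hfg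
      omega
    · obtain ⟨t1, ht1, hc1⟩ := constraint 14 17 (by norm_num) (by norm_num) (by norm_num) f g hfg
      obtain ⟨t2, ht2, hc2⟩ := constraint 14 19 (by norm_num) (by norm_num) (by norm_num) f g hfg
      obtain ⟨t3, ht3, hc3⟩ := constraint 14 23 (by norm_num) (by norm_num) (by norm_num) f g hfg
      omega

lemma unit_of_degree_le_one (m : ℕ) (f g : ℤ[X]) (hfg : PZ (2 * m) = f * g)
    (h : f.natDegree ≤ 1) : IsUnit f := by
  have h1 := no_linear m f g hfg
  have h0 : f.natDegree = 0 := by omega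
  rw [eq_C_of_natDegree_eq_zero h0]
  have h2 : f.coeff 0 * g.coeff 0 = 1 := by
    rw [← mul_coeff_zero, ← hfg, PZ_coeff_zero]
  exact (IsUnit.of_mul_eq_one _ h2).map C

theorem irreducible_PZ (m : ℕ) (hm : 0 < m) : Irreducible (PZ (2 * m)) := by
  constructor
  · intro h
    have := natDegree_eq_zero_of_isUnit h
    rw [PZ_natDegree] at this
    omega
  · intro f g hfg
    rcases dichotomy m hm f g hfg with h | h
    · left; exact unit_of_degree_le_one m f g hfg h
    · right; exact unit_of_degree_le_one m g f (by rw [hfg, mul_comm]) h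

lemma PZ_isPrimitive (m : ℕ) : (PZ (2 * m)).IsPrimitive := by
  intro r hr
  rw [C_dvd_iff_dvd_coeff] at hr
  have := hr 0
  rw [PZ_coeff_zero] at this
  exact isUnit_of_dvd_one this

/-- For every even `n ≥ 2` the Pascalian polynomial
`P_n(z) = ∑_{k=0}^n B(n,k) z^{n-k}`, `B(n,k) = binom(n, ⌊(n-k)/2⌋)`, is irreducible over `ℚ`. -/
theorem result (n : ℕ) (hn : Even n) (h2 : 2 ≤ n) :
    Irreducible (∑ k ∈ Finset.range (n + 1),
      C ((n.choose ((n - k) / 2) : ℕ) : ℚ) * X ^ (n - k) : ℚ[X]) := by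
  obtain ⟨m, rfl⟩ := hn
  rw [← two_mul] at *
  have h := (Polynomial.IsPrimitive.Int.irreducible_iff_irreducible_map_cast
    (PZ_isPrimitive m)).1 (irreducible_PZ m (by omega))
  convert h using 1
  rw [PZ, Polynomial.map_sum, ← Finset.sum_range_reflect]
  apply Finset.sum_congr rfl
  intro k hk
  rw [Finset.mem_range] at hk
  rw [show 2 * m + 1 - 1 - k = 2 * m - k by omega, show 2 * m - (2 * m - k) = k by omega]
  simp

end Pool.Agent.Results.MP_9fb898_nt.EvenIrreducible
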